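import Pool.Agent.H12.UT.Targets2

/-! B1: no cancellation. -/

set_option autoImplicit false

open Polynomial
open Pool.Agent.H12.UT

namespace Pool.Agent.H37.UT

theorem B1_key {E : Type} [Field E] {x : HS E} {p : ℝ} {r : E} (hr : r ≠ 0)
    (h1 : ∀ t < p, x.coeff t = 0) (h2 : x.coeff p = r) : x.leadingCoeff = r := by
  have hx : x ≠ 0 := HahnSeries.ne_zero_of_coeff_ne_zero (g := p) (by rw [h2]; exact hr)
  have ho : x.order = p := by
    refine le_antisymm (HahnSeries.order_le_of_coeff_ne_zero (by rw [h2]; exact hr)) ?_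
    exact (HahnSeries.le_order_iff_forall hx).2 h1
  rw [HahnSeries.leadingCoeff_eq, ho, h2]

theorem pf_B1 : T_B1 := by
  intro E _ c X Y hc _
  have hc0 : c ≠ 0 := by
    rintro rfl
    exact hc ⟨0, by simp⟩
  have hlc : c.leadingCoeff ≠ 0 := HahnSeries.leadingCoeff_ne_zero.2 hc0
  have hlA : (X ^ 2).leadingCoeff = X.leadingCoeff ^ 2 := by
    rw [pow_two, HahnSeries.leadingCoeff_mul, pow_two]
  have hlB : (c * Y ^ 2).leadingCoeff = c.leadingCoeff * Y.leadingCoeff ^ 2 := by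
    rw [pow_two, HahnSeries.leadingCoeff_mul, HahnSeries.leadingCoeff_mul, pow_two]
  by_cases hY : Y = 0
  · refine ⟨X.leadingCoeff, 0, ?_⟩
    subst hY
    rw [zero_pow two_ne_zero, mul_zero, sub_zero, hlA]
    ring
  have hlY : Y.leadingCoeff ≠ 0 := HahnSeries.leadingCoeff_ne_zero.2 hY
  have hB0 : c * Y ^ 2 ≠ 0 := mul_ne_zero hc0 (pow_ne_zero 2 hY)
  have hlB0 : c.leadingCoeff * Y.leadingCoeff ^ 2 ≠ 0 := mul_ne_zero hlc (pow_ne_zero 2 hlY)
  have hcB : (c * Y ^ 2).coeff (c * Y ^ 2).order = c.leadingCoeff * Y.leadingCoeff ^ 2 := by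
    rw [← HahnSeries.leadingCoeff_eq, hlB]
  by_cases hX : X = 0
  · refine ⟨0, Y.leadingCoeff, ?_⟩
    subst hX
    rw [zero_pow two_ne_zero, zero_pow two_ne_zero, zero_sub, zero_sub]
    refine B1_key (p := (c * Y ^ 2).order) (neg_ne_zero.2 hlB0) (fun t ht => ?_) ?_
    · rw [HahnSeries.coeff_neg, HahnSeries.coeff_eq_zero_of_lt_order ht, neg_zero]
    · rw [HahnSeries.coeff_neg, hcB]
  have hlX : X.leadingCoeff ≠ 0 := HahnSeries.leadingCoeff_ne_zero.2 hX
  have hlA0 : X.leadingCoeff ^ 2 ≠ 0 := pow_ne_zero 2 hlX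
  have hcA : (X ^ 2).coeff (X ^ 2).order = X.leadingCoeff ^ 2 := by
    rw [← HahnSeries.leadingCoeff_eq, hlA]
  rcases lt_trichotomy (X ^ 2).order (c * Y ^ 2).order with h | h | h
  · refine ⟨X.leadingCoeff, 0, ?_⟩
    have h1 : X.leadingCoeff ^ 2 - c.leadingCoeff * 0 ^ 2 = X.leadingCoeff ^ 2 := by ring
    rw [h1]
    refine B1_key (p := (X ^ 2).order) hlA0 (fun t ht => ?_) ?_
    · rw [HahnSeries.coeff_sub, HahnSeries.coeff_eq_zero_of_lt_order ht,
        HahnSeries.coeff_eq_zero_of_lt_order (ht.trans h), sub_zero]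
    · rw [HahnSeries.coeff_sub, hcA, HahnSeries.coeff_eq_zero_of_lt_order h, sub_zero]
  · refine ⟨X.leadingCoeff, Y.leadingCoeff, ?_⟩
    have hne : X.leadingCoeff ^ 2 - c.leadingCoeff * Y.leadingCoeff ^ 2 ≠ 0 := by
      intro h0
      apply hc
      refine ⟨X.leadingCoeff / Y.leadingCoeff, ?_⟩
      field_simp
      linear_combination -h0
    refine B1_key (p := (X ^ 2).order) hne (fun t ht => ?_) ?_
    · rw [HahnSeries.coeff_sub, HahnSeries.coeff_eq_zero_of_lt_order ht,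
        HahnSeries.coeff_eq_zero_of_lt_order (h ▸ ht), sub_zero]
    · rw [HahnSeries.coeff_sub, hcA, h, hcB]
  · refine ⟨0, Y.leadingCoeff, ?_⟩
    have h1 : (0 : E) ^ 2 - c.leadingCoeff * Y.leadingCoeff ^ 2 =
        -(c.leadingCoeff * Y.leadingCoeff ^ 2) := by ring
    rw [h1]
    refine B1_key (p := (c * Y ^ 2).order) (neg_ne_zero.2 hlB0) (fun t ht => ?_) ?_
    · rw [HahnSeries.coeff_sub, HahnSeries.coeff_eq_zero_of_lt_order ht,
        HahnSeries.coeff_eq_zero_of_lt_order (ht.trans h), sub_zero]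
    · rw [HahnSeries.coeff_sub, HahnSeries.coeff_eq_zero_of_lt_order h, hcB, zero_sub]

end Pool.Agent.H37.UT
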