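import Pool.Agent.H12.UT.Targets2

/-! CV1: homogenisation along the curve. -/

set_option autoImplicit false

open Polynomial
open Pool.Agent.H12.UT

namespace Pool.Agent.H37.UT

/-- degree bound, lowest and highest coefficient -/
def CV1_Q {k : Type} [Field k] (f : k[X]) (n : ℕ) (a b : k) : Prop :=
  f.natDegree ≤ n ∧ f.coeff 0 = a ∧ f.coeff n = b

theorem CV1_mul {k : Type} [Field k] {f g : k[X]} {n m : ℕ} {a b a' b' : k}
    (hf : CV1_Q f n a b) (hg : CV1_Q g m a' b') : CV1_Q (f * g) (n + m) (a * a') (b * b') := by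
  obtain ⟨h1, h2, h3⟩ := hf
  obtain ⟨h4, h5, h6⟩ := hg
  refine ⟨natDegree_mul_le_of_le h1 h4, ?_, ?_⟩
  · rw [mul_coeff_zero, h2, h5]
  · rw [coeff_mul_add_eq_of_natDegree_le h1 h4, h3, h6]

theorem CV1_one {k : Type} [Field k] : CV1_Q (1 : k[X]) 0 1 1 :=
  ⟨natDegree_one.le, coeff_one_zero, coeff_one_zero⟩

theorem CV1_pow {k : Type} [Field k] {f : k[X]} {n : ℕ} {a b : k}
    (hf : CV1_Q f n a b) (e : ℕ) : CV1_Q (f ^ e) (e * n) (a ^ e) (b ^ e) := by
  induction e with
  | zero => simpa using CV1_one (k := k)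
  | succ e ih =>
    rw [pow_succ, pow_succ, pow_succ, add_mul, one_mul]
    exact CV1_mul ih hf

theorem CV1_prod {k : Type} [Field k] {ι : Type} (S : Finset ι) (f : ι → k[X]) (n : ι → ℕ)
    (a b : ι → k) (hf : ∀ i, CV1_Q (f i) (n i) (a i) (b i)) :
    CV1_Q (∏ i ∈ S, f i) (∑ i ∈ S, n i) (∏ i ∈ S, a i) (∏ i ∈ S, b i) := by
  classical
  induction S using Finset.induction_on with
  | empty => simpa using CV1_one (k := k)
  | insert i S hi ih =>
    rw [Finset.prod_insert hi, Finset.sum_insert hi, Finset.prod_insert hi, Finset.prod_insert hi]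
    exact CV1_mul (hf i) ih

theorem CV1_lin {k : Type} [Field k] (a b : k) : CV1_Q (C a + X * C b) 1 a b := by
  refine ⟨?_, ?_, ?_⟩
  · rw [X_mul_C]
    exact natDegree_add_le_of_degree_le ((natDegree_C a).le.trans zero_le_one)
      ((natDegree_C_mul_le b X).trans natDegree_X_le)
  · simp
  · simp [coeff_C]

theorem pf_CV1 : T_CV1 := by
  intro K k Λ _ _ _ _ _ _ N z0 z1 P D hD
  let t : (Fin N →₀ ℕ) → k[X] := fun α =>
    (1 + X) ^ (D - ∑ j, α j) * ∏ j, (C (z0 j) + X * C (z1 j)) ^ (α j)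
  have hα : ∀ α ∈ P.support, ∑ j, α j ≤ D := by
    intro α h
    have h1 := MvPolynomial.le_totalDegree h
    rw [Finsupp.sum_fintype _ _ (fun _ => rfl)] at h1
    exact h1.trans hD
  have ht : ∀ α ∈ P.support, CV1_Q (t α) D (∏ j, z0 j ^ α j) (∏ j, z1 j ^ α j) := by
    intro α h
    have h1 : CV1_Q ((1 : k[X]) + X) 1 1 1 := by
      have := CV1_lin (1 : k) 1
      simpa using this
    have h2 := CV1_mul (CV1_pow h1 (D - ∑ j, α j))
      (CV1_prod Finset.univ _ _ _ _ fun j => CV1_pow (CV1_lin (z0 j) (z1 j)) (α j))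
    rw [one_pow, one_mul, one_mul, mul_one] at h2
    have h3 : D - ∑ j, α j + ∑ j, α j * 1 = D := by
      simp only [mul_one]
      exact Nat.sub_add_cancel (hα α h)
    rw [h3] at h2
    exact h2
  refine ⟨∑ α ∈ P.support, C (algebraMap K k (P.coeff α)) * t α, ?_, ?_, ?_, ?_⟩
  · refine natDegree_sum_le_of_forall_le _ _ fun α h => ?_
    exact (natDegree_C_mul_le _ _).trans (ht α h).1
  · rw [finsetSum_coeff, MvPolynomial.aeval_def, MvPolynomial.eval₂_eq']
    refine Finset.sum_congr rfl fun α h => ?_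
    rw [coeff_C_mul, (ht α h).2.1]
  · rw [finsetSum_coeff, MvPolynomial.aeval_def, MvPolynomial.eval₂_eq']
    refine Finset.sum_congr rfl fun α h => ?_
    rw [coeff_C_mul, (ht α h).2.2]
  · have hu : algebraMap k[X] Λ (1 + X) ≠ 0 := by
      rw [Ne, IsFractionRing.to_map_eq_zero_iff]
      intro h0
      have h1 := congrArg (fun f => Polynomial.coeff f 1) h0
      simp [coeff_one] at h1
    rw [map_sum, MvPolynomial.eval₂_eq', Finset.mul_sum]
    refine Finset.sum_congr rfl fun α h => ?_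
    have h3 : algebraMap k[X] Λ (t α) = (algebraMap k[X] Λ (1 + X)) ^ D *
        ∏ j, (algebraMap k[X] Λ (C (z0 j) + X * C (z1 j)) / algebraMap k[X] Λ (1 + X)) ^ α j := by
      show algebraMap k[X] Λ ((1 + X) ^ (D - ∑ j, α j) *
        ∏ j, (C (z0 j) + X * C (z1 j)) ^ (α j)) = _
      rw [map_mul, map_pow, map_prod]
      simp only [div_pow, map_pow]
      rw [Finset.prod_div_distrib, Finset.prod_pow_eq_pow_sum, mul_div_assoc', eq_div_iff
        (pow_ne_zero _ hu)]
      have h4 : (algebraMap k[X] Λ (1 + X)) ^ D = (algebraMap k[X] Λ (1 + X)) ^ (D - ∑ j, α j) *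
          (algebraMap k[X] Λ (1 + X)) ^ (∑ j, α j) := by
        rw [← pow_add, Nat.sub_add_cancel (hα α h)]
      rw [h4]
      ring
    rw [map_mul, h3]
    show algebraMap k[X] Λ (C (algebraMap K k (P.coeff α))) * _ = _ *
      (algebraMap k[X] Λ (C (algebraMap K k (P.coeff α))) * _)
    ring

end Pool.Agent.H37.UT
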