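import Pool.Agent.H12.UT.Targets2

/-! HM: order and leading coefficient under the coefficientwise map. -/

set_option autoImplicit false

open Polynomial
open Pool.Agent.H12.UT

namespace Pool.Agent.H37.UT

theorem HM_key {E : Type} [Field E] {x : HS E} {p : ℝ} {r : E} (hr : r ≠ 0)
    (h1 : ∀ t < p, x.coeff t = 0) (h2 : x.coeff p = r) :
    x ≠ 0 ∧ x.order = p ∧ x.leadingCoeff = r := by
  have hx : x ≠ 0 := HahnSeries.ne_zero_of_coeff_ne_zero (g := p) (by rw [h2]; exact hr)
  have ho : x.order = p := by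
    refine le_antisymm (HahnSeries.order_le_of_coeff_ne_zero (by rw [h2]; exact hr)) ?_
    exact (HahnSeries.le_order_iff_forall hx).2 h1
  refine ⟨hx, ho, ?_⟩
  rw [HahnSeries.leadingCoeff_eq, ho, h2]

theorem pf_HM : T_HM := by
  intro κ E _ _ i x
  by_cases hx : x = 0
  · subst hx
    simp
  · have hl : i (x.coeff x.order) ≠ 0 := by
      rw [_root_.map_ne_zero]
      exact fun h => hx (HahnSeries.coeff_order_eq_zero.1 h)
    obtain ⟨h1, h2, h3⟩ := HM_key (x := hmap i x) (p := x.order) hl
      (fun t ht => by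
        show i (x.coeff t) = 0
        rw [HahnSeries.coeff_eq_zero_of_lt_order ht, map_zero]) rfl
    refine ⟨h2, ?_, fun _ => h1⟩
    rw [h3, HahnSeries.leadingCoeff_eq]

end Pool.Agent.H37.UT
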