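import Pool.Agent.H12.UT.Targets2

/-! RD0: the first residue point. -/

set_option autoImplicit false

open Polynomial
open Pool.Agent.H12.UT

namespace Pool.Agent.H37.UT

/-- `x = 0` or positive order -/
def RD0_small {E : Type} [Field E] (x : HS E) : Prop := ∀ t ≤ (0 : ℝ), x.coeff t = 0

/-- no terms of negative exponent -/
def RD0_int {E : Type} [Field E] (x : HS E) : Prop := ∀ t < (0 : ℝ), x.coeff t = 0

theorem RD0_int_of {E : Type} [Field E] {x : HS E} (h : 0 ≤ x.order) : RD0_int x :=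
  fun _ ht => HahnSeries.coeff_eq_zero_of_lt_order (ht.trans_le h)

theorem RD0_of_int {E : Type} [Field E] {x : HS E} (h : RD0_int x) : 0 ≤ x.order := by
  by_cases hx : x = 0
  · rw [hx, HahnSeries.order_zero]
  · exact (HahnSeries.le_order_iff_forall hx).2 h

theorem RD0_key {E : Type} [Field E] {x : HS E} {r : E} (hr : r ≠ 0)
    (h1 : RD0_int x) (h2 : x.coeff 0 = r) : x.order = 0 ∧ x.leadingCoeff = r := by
  have hx : x ≠ 0 := HahnSeries.ne_zero_of_coeff_ne_zero (g := 0) (by rw [h2]; exact hr)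
  have ho : x.order = 0 := by
    refine le_antisymm (HahnSeries.order_le_of_coeff_ne_zero (by rw [h2]; exact hr)) ?_
    exact (HahnSeries.le_order_iff_forall hx).2 h1
  refine ⟨ho, ?_⟩
  rw [HahnSeries.leadingCoeff_eq, ho, h2]

theorem RD0_add {E : Type} [Field E] {x y : HS E} (hx : RD0_int x) (hy : RD0_int y) :
    RD0_int (x + y) := by
  intro t ht
  rw [HahnSeries.coeff_add, hx t ht, hy t ht, add_zero]

theorem RD0_T {E : Type} [Field E] : RD0_int (HahnSeries.single 1 1 : HS E) := by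
  intro t ht
  rw [HahnSeries.coeff_single_of_ne]
  linarith

theorem RD0_C {E : Type} [Field E] (r : E) : RD0_int (HahnSeries.C r : HS E) := by
  intro t ht
  rw [HahnSeries.C_apply, HahnSeries.coeff_single_of_ne]
  linarith

theorem RD0_C0 {E : Type} [Field E] (r : E) : (HahnSeries.C r : HS E).coeff 0 = r := by
  rw [HahnSeries.C_apply, HahnSeries.coeff_single_same]

theorem RD0_T0 {E : Type} [Field E] : (HahnSeries.single 1 1 : HS E).coeff 0 = 0 := by
  rw [HahnSeries.coeff_single_of_ne]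
  norm_num

/-- products of units -/
theorem RD0_mul {E : Type} [Field E] {x y : HS E} (hx : x.order = 0) (hx0 : x ≠ 0)
    (hy : y.order = 0) (hy0 : y ≠ 0) :
    (x * y).order = 0 ∧ x * y ≠ 0 ∧ (x * y).leadingCoeff = x.leadingCoeff * y.leadingCoeff := by
  refine ⟨?_, mul_ne_zero hx0 hy0, HahnSeries.leadingCoeff_mul _ _⟩
  rw [HahnSeries.order_mul hx0 hy0, hx, hy, add_zero]

theorem RD0_mul_int {E : Type} [Field E] {x y : HS E} (hx : 0 ≤ x.order) (hy : 0 ≤ y.order) :
    0 ≤ (x * y).order := by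
  by_cases hx0 : x = 0
  · rw [hx0, zero_mul, HahnSeries.order_zero]
  by_cases hy0 : y = 0
  · rw [hy0, mul_zero, HahnSeries.order_zero]
  rw [HahnSeries.order_mul hx0 hy0]
  exact add_nonneg hx hy

theorem pf_RD0 : T_RD0 := by
  intro _ _ hC hT
  refine ⟨fun _ => 1, fun _ => 0, 1, 0, ?_⟩
  refine ⟨one_ne_zero, one_ne_zero, fun _ => one_ne_zero, one_ne_zero, fun i _ => ?_, ?_, ?_, ?_⟩
  · ring
  · ring
  · ring
  · intro s hs hl
    rw [div_one] at hl
    have hs0 : s ≠ 0 := by
      rw [← HahnSeries.leadingCoeff_ne_zero, hl]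
      exact one_ne_zero
    have hsc : s.coeff 0 = 1 := by
      rw [← hs, ← HahnSeries.leadingCoeff_eq, hl]
    have hsi : RD0_int s := RD0_int_of hs.ge
    set T : HS Kap := HahnSeries.single 1 1 with hTdef
    have hone : (1 : HS Kap) = HahnSeries.C 1 := (map_one _).symm
    -- the factors of `P`
    have f1 : (s - T).order = 0 ∧ (s - T).leadingCoeff = 1 := by
      refine RD0_key one_ne_zero (fun t ht => ?_) ?_
      · rw [HahnSeries.coeff_sub, hsi t ht, RD0_T t ht, sub_zero]
      · rw [HahnSeries.coeff_sub, hsc, RD0_T0, sub_zero]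
    have f2 : (s + 1).order = 0 ∧ (s + 1).leadingCoeff = 2 := by
      refine RD0_key two_ne_zero (fun t ht => ?_) ?_
      · rw [HahnSeries.coeff_add, hsi t ht, hone, RD0_C 1 t ht, add_zero]
      · rw [HahnSeries.coeff_add, hsc, hone, RD0_C0]
        norm_num
    have f3 : (2 * (1 - T)).order = 0 ∧ (2 * (1 - T)).leadingCoeff = 2 := by
      have h2 : (2 : HS Kap) * (1 - T) = HahnSeries.C 2 - (T + T) := by
        rw [show (HahnSeries.C 2 : HS Kap) = 2 from map_ofNat _ 2]
        ring
      rw [h2]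
      refine RD0_key two_ne_zero (fun t ht => ?_) ?_
      · rw [HahnSeries.coeff_sub, RD0_C 2 t ht, HahnSeries.coeff_add, RD0_T t ht]
        ring
      · rw [HahnSeries.coeff_sub, RD0_C0, HahnSeries.coeff_add, RD0_T0]
        ring
    have n1 : s - T ≠ 0 := by
      rw [← HahnSeries.leadingCoeff_ne_zero, f1.2]
      exact one_ne_zero
    have n2 : s + 1 ≠ 0 := by
      rw [← HahnSeries.leadingCoeff_ne_zero, f2.2]
      exact two_ne_zero
    have n3 : 2 * (1 - T) ≠ 0 := by
      rw [← HahnSeries.leadingCoeff_ne_zero, f3.2]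
      exact two_ne_zero
    have hP : aeval s PK = 2 * (1 - T) * s * (s - T) * (s + 1) := by
      unfold PK
      simp only [map_mul, map_add, map_sub, aeval_C, aeval_X, map_one, hT, map_ofNat]
    have g1 := RD0_mul f3.1 n3 hs hs0
    have g2 := RD0_mul g1.1 g1.2.1 f1.1 n1
    have g3 := RD0_mul g2.1 g2.2.1 f2.1 n2
    refine ⟨by rw [hP]; exact g3.1, ⟨2, two_ne_zero, ?_⟩, ?_⟩
    · rw [hP, g3.2.2, g2.2.2, g1.2.2, f3.2, hl, f1.2, f2.2]
      norm_num
    · have hQ : aeval s QK = HahnSeries.C aK * (HahnSeries.C m3 * s + T) *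
          (HahnSeries.C m4 * s + T) := by
        unfold QK
        simp only [map_mul, map_add, aeval_C, aeval_X, hT, hC]
      rw [hQ]
      have hc : ∀ r : Kap, 0 ≤ (HahnSeries.C r : HS Kap).order := fun r => RD0_of_int (RD0_C r)
      have hl2 : ∀ r : Kap, 0 ≤ (HahnSeries.C r * s + T).order := fun r =>
        RD0_of_int (RD0_add (RD0_int_of (RD0_mul_int (hc r) hs.ge)) RD0_T)
      exact RD0_mul_int (RD0_mul_int (hc _) (hl2 _)) (hl2 _)

end Pool.Agent.H37.UT
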